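import Pool.Agent.H607.G.R_pool_sql_team_seeded_f72693b1.W206.ND.Stm

set_option autoImplicit false

namespace Pool.Agent.W92.ND.DM

open Filter Topology Pool.Agent.W206.ND

theorem one (hDG : S_DG) (b : ℕ) (hb : 2 ≤ b) : ∀ (m : ℕ) (d : Fin m → Fin b), ∃ a : ℝ,
    0 ≤ a ∧ a + 1 / (b : ℝ) ^ m ≤ 1 ∧ ∀ y : ℝ,
      ((∀ t : Fin m, Int.floor (y * (b : ℝ) ^ (1 + (t : ℕ))) % (b : ℤ) = ((d t : ℕ) : ℤ)) ↔
        a ≤ Int.fract y ∧ Int.fract y < a + 1 / (b : ℝ) ^ m) := by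
  intro m
  have hb0 : (0 : ℝ) < b := by exact_mod_cast (by omega : 0 < b)
  induction m with
  | zero =>
    intro d
    refine ⟨0, le_rfl, by simp, fun y => ?_⟩
    simp only [pow_zero, div_one, zero_add]
    exact ⟨fun _ => ⟨Int.fract_nonneg y, Int.fract_lt_one y⟩, fun _ t => t.elim0⟩
  | succ m ih =>
    intro d
    obtain ⟨a', ha0, ha1, ha⟩ := ih (fun t => d t.succ)
    have hd : (((d 0 : ℕ) : ℝ)) + 1 ≤ b := by exact_mod_cast (d 0).2
    have hd0 : (0 : ℝ) ≤ ((d 0 : ℕ) : ℝ) := Nat.cast_nonneg _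
    have hpow : 1 / (b : ℝ) ^ (m + 1) = (1 / (b : ℝ) ^ m) / b := by
      rw [pow_succ]; field_simp
    have hpos : 0 < 1 / (b : ℝ) ^ m := by positivity
    refine ⟨(((d 0 : ℕ) : ℝ) + a') / b, by positivity, ?_, fun y => ?_⟩
    · rw [hpow, ← add_div, div_le_one hb0]; linarith
    rw [Fin.forall_fin_succ]
    have e0 : y * (b : ℝ) ^ (1 + ((0 : Fin (m + 1)) : ℕ)) = y * b := by simp
    have e1 : (∀ t : Fin m, Int.floor (y * (b : ℝ) ^ (1 + ((t.succ : Fin (m + 1)) : ℕ))) % (b : ℤ)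
        = ((d t.succ : ℕ) : ℤ)) ↔ (∀ t : Fin m, Int.floor ((y * b) * (b : ℝ) ^ (1 + (t : ℕ)))
          % (b : ℤ) = ((d t.succ : ℕ) : ℤ)) := by
      refine forall_congr' fun t => ?_
      have : y * (b : ℝ) ^ (1 + ((t.succ : Fin (m + 1)) : ℕ)) =
          (y * b) * (b : ℝ) ^ (1 + (t : ℕ)) := by
        rw [Fin.val_succ]; ring
      rw [this]
    rw [e0, e1, ha (y * b), hDG b y (d 0) hb (d 0).2, hpow, ← add_div]
    set f := Int.fract y with hf
    have hfr : ((d 0 : ℕ) : ℝ) ≤ f * b → f * b < ((d 0 : ℕ) : ℝ) + 1 →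
        Int.fract (y * b) = f * b - ((d 0 : ℕ) : ℝ) := by
      intro h1 h2
      have hy : y * b = f * b + ((Int.floor y * b : ℤ) : ℝ) := by
        have := Int.self_sub_floor y
        push_cast
        rw [hf, ← this]; ring
      rw [hy, Int.fract_add_intCast]
      have hfl : Int.floor (f * b) = ((d 0 : ℕ) : ℤ) := by
        rw [Int.floor_eq_iff]
        push_cast
        exact ⟨h1, h2⟩
      rw [Int.fract, hfl]
      push_cast
      rfl
    constructor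
    · rintro ⟨⟨h1, h2⟩, h3, h4⟩
      rw [div_le_iff₀ hb0] at h1
      rw [lt_div_iff₀ hb0] at h2
      rw [hfr h1 h2] at h3 h4
      rw [div_le_iff₀ hb0, lt_div_iff₀ hb0]
      constructor <;> linarith
    · rintro ⟨h1, h2⟩
      rw [div_le_iff₀ hb0] at h1
      rw [lt_div_iff₀ hb0] at h2
      have h3 : ((d 0 : ℕ) : ℝ) ≤ f * b := by linarith
      have h4 : f * b < ((d 0 : ℕ) : ℝ) + 1 := by linarith
      rw [hfr h3 h4, div_le_iff₀ hb0, lt_div_iff₀ hb0]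
      exact ⟨⟨h3, h4⟩, by linarith, by linarith⟩

theorem main : S_DM := by
  intro hDG b n m D hb
  choose a h0 h1 h2 using fun j : Fin n => one hDG b hb m (D j)
  refine ⟨a, fun j => ⟨h0 j, h1 j⟩, fun ξ i => ?_⟩
  refine forall_congr' fun j => ?_
  rw [← h2 j (ξ j * (b : ℝ) ^ i)]
  refine forall_congr' fun t => ?_
  have : ξ j * (b : ℝ) ^ (i + 1 + (t : ℕ)) = ξ j * (b : ℝ) ^ i * (b : ℝ) ^ (1 + (t : ℕ)) := by
    rw [add_assoc, pow_add, mul_assoc]
  rw [this]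

end Pool.Agent.W92.ND.DM
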